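import Pool.Agent.H72.GP.Targets
import Pool.Agent.H83.PSV.MJG
import Pool.Agent.H19.PSV.MJM

/-!
# MP_3cf473_nt: module MJG of the board `gpo_modules`

Size of the coefficients of the local expansions.
-/

set_option autoImplicit false

open Polynomial Finset
open Pool.Agent.H72.GP
open Pool.Agent.H85.PS (II MM Vec Sup Deg Jf Typ Maj Tay)

namespace Pool.Agent.H10.GPO

open Pool.Agent.H83.PSV.MJG

theorem gp_le (x y : ℚ) (n : ℕ) : |(gp x y n).1| + |(gp x y n).2| ≤ (|x| + |y|) ^ n := by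
  induction n with
  | zero => simp [gp]
  | succ n ih =>
    have h1 : |x * (gp x y n).1 - y * (gp x y n).2| ≤
        |x| * |(gp x y n).1| + |y| * |(gp x y n).2| := by
      refine (abs_sub _ _).trans ?_
      rw [abs_mul, abs_mul]
    have h2 : |x * (gp x y n).2 + y * (gp x y n).1| ≤
        |x| * |(gp x y n).2| + |y| * |(gp x y n).1| := by
      refine (abs_add_le _ _).trans ?_
      rw [abs_mul, abs_mul]
    have h3 : (0 : ℚ) ≤ |x| + |y| := by positivity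
    calc |(gp x y (n + 1)).1| + |(gp x y (n + 1)).2|
        ≤ (|x| * |(gp x y n).1| + |y| * |(gp x y n).2|) +
          (|x| * |(gp x y n).2| + |y| * |(gp x y n).1|) := add_le_add h1 h2
      _ = (|x| + |y|) * (|(gp x y n).1| + |(gp x y n).2|) := by ring
      _ ≤ (|x| + |y|) * (|x| + |y|) ^ n := mul_le_mul_of_nonneg_left ih h3
      _ = (|x| + |y|) ^ (n + 1) := by ring

theorem maj_lgG {κ : Bool} {x y : ℚ} {R : ℝ} (h : ((|x| + |y| : ℚ) : ℝ) ≤ R) :
    Maj 1 R (lgG κ x y) := by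
  intro i
  unfold lgG
  rw [PowerSeries.coeff_mk, one_mul]
  have h0 : (0 : ℚ) ≤ |x| + |y| := by positivity
  have h0' : (0 : ℝ) ≤ ((|x| + |y| : ℚ) : ℝ) := by exact_mod_cast h0
  have hR : 0 ≤ R := h0'.trans h
  have h1 : |(if κ then (gp x y i).2 else (gp x y i).1)| ≤ (|x| + |y|) ^ i := by
    have h2 := gp_le x y i
    have h3 := abs_nonneg (gp x y i).1
    have h4 := abs_nonneg (gp x y i).2
    split_ifs <;> linarith
  have h5 : |(((if κ then (gp x y i).2 else (gp x y i).1) : ℚ) : ℝ)| ≤ R ^ i := by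
    have h6 : |(((if κ then (gp x y i).2 else (gp x y i).1) : ℚ) : ℝ)| ≤
        ((|x| + |y| : ℚ) : ℝ) ^ i := by exact_mod_cast h1
    exact h6.trans (pow_le_pow_left₀ h0' h i)
  rw [Rat.cast_div, Rat.cast_mul, abs_div, abs_mul]
  push_cast
  rw [abs_pow, abs_neg, abs_one, one_pow, one_mul, Nat.abs_cast]
  rcases Nat.eq_zero_or_pos i with hi | hi
  · subst hi
    simp
  · have hi1 : (1 : ℝ) ≤ (i : ℝ) := by exact_mod_cast hi
    rw [div_le_iff₀ (by linarith)]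
    have h7 : 0 ≤ R ^ i := pow_nonneg hR i
    have h8 : |if κ = true then (((gp x y i).2 : ℚ) : ℝ) else (((gp x y i).1 : ℚ) : ℝ)| ≤
        R ^ i := by
      refine le_trans (le_of_eq ?_) h5
      split_ifs <;> rfl
    nlinarith

theorem lam_bound {N B : ℕ} (hB : 1 ≤ B) (hN : 8 * B < N) {x y : ℤ} (hx : |x| ≤ B)
    (hy : |y| ≤ B) :
    |((x : ℚ) + ((x : ℚ) ^ 2 + (y : ℚ) ^ 2) * (1 / N)) / qn x y (1 / N)| +
      |(y : ℚ) / qn x y (1 / N)| ≤ 8 * B := by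
  have hN0 : (0 : ℚ) < N := by
    have : 0 < N := by omega
    exact_mod_cast this
  have hB0 : (1 : ℚ) ≤ B := by exact_mod_cast hB
  have hN8 : (8 : ℚ) * B ≤ N := by exact_mod_cast hN.le
  have hx' : |(x : ℚ)| ≤ B := by exact_mod_cast hx
  have hy' : |(y : ℚ)| ≤ B := by exact_mod_cast hy
  set t : ℚ := 1 / N with ht
  have ht0 : 0 < t := by positivity
  have hBt : (B : ℚ) * t ≤ 1 / 8 := by
    rw [ht, mul_one_div, div_le_div_iff₀ hN0 (by norm_num)]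
    linarith
  obtain ⟨hx1, hx2⟩ := abs_le.mp hx'
  obtain ⟨hy1, hy2⟩ := abs_le.mp hy'
  have hxt : -(1 / 8) ≤ (x : ℚ) * t := by nlinarith
  have hq : (1 : ℚ) / 2 ≤ qn x y t := by
    unfold qn
    nlinarith [sq_nonneg ((y : ℚ) * t)]
  have hq0 : (0 : ℚ) < qn x y t := by linarith
  have hsq : ((x : ℚ) ^ 2 + (y : ℚ) ^ 2) * t ≤ B / 4 := by
    have h1 : (x : ℚ) ^ 2 ≤ B ^ 2 := by
      rw [sq_le_sq, abs_of_nonneg (by linarith : (0 : ℚ) ≤ B)]
      exact hx'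
    have h2 : (y : ℚ) ^ 2 ≤ B ^ 2 := by
      rw [sq_le_sq, abs_of_nonneg (by linarith : (0 : ℚ) ≤ B)]
      exact hy'
    have h3 : ((x : ℚ) ^ 2 + (y : ℚ) ^ 2) * t ≤ (2 * B ^ 2) * t :=
      mul_le_mul_of_nonneg_right (by linarith) ht0.le
    have h4 : (2 * (B : ℚ) ^ 2) * t = 2 * B * (B * t) := by ring
    rw [h4] at h3
    nlinarith
  have hsq0 : 0 ≤ ((x : ℚ) ^ 2 + (y : ℚ) ^ 2) * t := by positivity
  have h1 : |((x : ℚ) + ((x : ℚ) ^ 2 + (y : ℚ) ^ 2) * t) / qn x y t| ≤ 5 / 2 * B := by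
    rw [abs_div, abs_of_pos hq0, div_le_iff₀ hq0]
    have h2 : |(x : ℚ) + ((x : ℚ) ^ 2 + (y : ℚ) ^ 2) * t| ≤ B + B / 4 := by
      rw [abs_le]
      constructor <;> linarith
    nlinarith
  have h2 : |(y : ℚ) / qn x y t| ≤ 2 * B := by
    rw [abs_div, abs_of_pos hq0, div_le_iff₀ hq0]
    nlinarith
  linarith

theorem pf_MJG : T_MJG := by
  classical
  have h1 := Pool.Agent.H19.PSV.pf_MJM
  intro s D
  refine ⟨4 * (MM s D + 1) * 2 ^ (D + s + 4), ?_, ?_⟩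
  · exact Nat.one_le_iff_ne_zero.2 (by positivity)
  intro m N B0 κ x y A a hB hN hb hA ha hAa i e'
  have hN1 : 1 ≤ N := by omega
  set B : ℝ := 8 * (B0 : ℝ) with hBdef
  have hBr : (1 : ℝ) ≤ (B0 : ℝ) := by exact_mod_cast hB
  have hB' : (1 : ℝ) ≤ (B : ℝ) := by linarith
  have hB0 : (0 : ℝ) ≤ (B : ℝ) := by linarith
  have hlam : ∀ k, Maj 1 (B : ℝ) (lamG (κ k) (x k : ℚ) (y k : ℚ) (1 / N)) := by
    intro k
    unfold lamG
    apply maj_lgG
    have h2 := lam_bound hB hN (hb k).1 (hb k).2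
    rw [hBdef]
    exact_mod_cast h2
  set Q : ℝ := 2 ^ (D + s + 1) * B with hQ
  have hterm : ∀ e ∈ II s D, |((PowerSeries.coeff i (((taylor (1 / N : ℚ) (A e) : ℚ[X]) :
      PowerSeries ℚ) * (∏ k, ((e k).choose (e' k) : PowerSeries ℚ)) *
      ∏ k, lamG (κ k) (x k : ℚ) (y k : ℚ) (1 / N) ^ (e k - e' k)) : ℚ) : ℝ)| ≤
      2 ^ D * (((m : ℝ) + 1) * 2 ^ m * a) * Q ^ i := by
    intro e he
    have heD : ∑ k, e k ≤ D := by
      unfold II at he
      exact (Finset.mem_filter.1 he).2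
    have hT := maj_taylor hN1 hB' (A e) (hA e) ha (hAa e)
    have hP := maj_prod h1 hB0 Finset.univ (fun k => lamG (κ k) (x k : ℚ) (y k : ℚ) (1 / N))
      (fun k => e k - e' k) hlam
    have hle : ∑ k, (e k - e' k) + (Finset.univ : Finset (Fin s)).card ≤ D + s := by
      rw [Finset.card_univ, Fintype.card_fin]
      have : ∑ k, (e k - e' k) ≤ ∑ k, e k := Finset.sum_le_sum fun k _ => Nat.sub_le _ _
      omega
    have hP' : Maj 1 (2 ^ (D + s) * (B : ℝ)) (∏ k, lamG (κ k) (x k : ℚ) (y k : ℚ) (1 / N) ^ (e k - e' k)) :=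
      maj_mono zero_le_one (by positivity)
        (mul_le_mul_of_nonneg_right (pow_le_pow_right₀ (by norm_num) hle) hB0) hP
    have hT' : Maj (((m : ℝ) + 1) * 2 ^ m * a) (2 ^ (D + s) * (B : ℝ))
        ((taylor (1 / N : ℚ) (A e) : ℚ[X]) : PowerSeries ℚ) := by
      apply maj_mono (by positivity) hB0 _ hT
      have : (1 : ℝ) ≤ 2 ^ (D + s) := one_le_pow₀ (by norm_num)
      nlinarith
    have hM := h1 _ _ _ _ _ (by positivity) (by positivity) hT' hP'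
    rw [mul_one] at hM
    have hMi := hM i
    have hch : (∏ k, ((e k).choose (e' k) : PowerSeries ℚ)) =
        PowerSeries.C ((∏ k, (e k).choose (e' k) : ℕ) : ℚ) := by
      rw [map_natCast, Nat.cast_prod]
    have hre : ((taylor (1 / N : ℚ) (A e) : ℚ[X]) : PowerSeries ℚ) *
        (∏ k, ((e k).choose (e' k) : PowerSeries ℚ)) *
        ∏ k, lamG (κ k) (x k : ℚ) (y k : ℚ) (1 / N) ^ (e k - e' k) =
        PowerSeries.C ((∏ k, (e k).choose (e' k) : ℕ) : ℚ) *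
        (((taylor (1 / N : ℚ) (A e) : ℚ[X]) : PowerSeries ℚ) *
        ∏ k, lamG (κ k) (x k : ℚ) (y k : ℚ) (1 / N) ^ (e k - e' k)) := by
      rw [hch]; ring
    rw [hre, PowerSeries.coeff_C_mul, Rat.cast_mul, abs_mul, Rat.cast_natCast, Nat.abs_cast]
    have hb2 : ((∏ k, (e k).choose (e' k) : ℕ) : ℝ) ≤ 2 ^ D := by
      have h2 : ∏ k, (e k).choose (e' k) ≤ 2 ^ D := by
        calc ∏ k, (e k).choose (e' k) ≤ ∏ k, 2 ^ (e k) :=
              Finset.prod_le_prod' fun k _ => Nat.choose_le_two_pow _ _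
          _ = 2 ^ (∑ k, e k) := Finset.prod_pow_eq_pow_sum _ _ _
          _ ≤ 2 ^ D := Nat.pow_le_pow_right (by norm_num) heD
      exact_mod_cast h2
    have hQe : 2 * (2 ^ (D + s) * (B : ℝ)) = Q := by rw [hQ, pow_succ]; ring
    rw [hQe] at hMi
    calc ((∏ k, (e k).choose (e' k) : ℕ) : ℝ) * _ ≤
          2 ^ D * ((((m : ℝ) + 1) * 2 ^ m * a) * Q ^ i) :=
          mul_le_mul hb2 hMi (abs_nonneg _) (by positivity)
      _ = 2 ^ D * (((m : ℝ) + 1) * 2 ^ m * a) * Q ^ i := by ring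
  have hsum : |((Gc (fun k => lamG (κ k) (x k) (y k) (1 / N)) (1 / N) D A i e' : ℚ) : ℝ)| ≤
      (MM s D : ℝ) * (2 ^ D * (((m : ℝ) + 1) * 2 ^ m * a) * Q ^ i) := by
    unfold Gc GG
    rw [map_sum, Rat.cast_sum]
    refine (Finset.abs_sum_le_sum_abs _ _).trans ((Finset.sum_le_sum hterm).trans ?_)
    rw [Finset.sum_const, nsmul_eq_mul]
    rfl
  refine hsum.trans ?_
  push_cast
  set c : ℝ := 4 * ((MM s D : ℝ) + 1) * 2 ^ (D + s + 4) with hc
  have hMM : (0 : ℝ) ≤ (MM s D : ℝ) := Nat.cast_nonneg _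
  have h2D : (1 : ℝ) ≤ 2 ^ (D + s + 4) := one_le_pow₀ (by norm_num)
  have h2D' : (2 : ℝ) ^ D ≤ 2 ^ (D + s + 4) := pow_le_pow_right₀ (by norm_num) (by omega)
  have hc4 : 4 ≤ c := by rw [hc]; nlinarith
  have hcM : (MM s D : ℝ) * 2 ^ D ≤ c := by
    rw [hc]
    have : (MM s D : ℝ) * 2 ^ D ≤ (MM s D : ℝ) * 2 ^ (D + s + 4) :=
      mul_le_mul_of_nonneg_left h2D' hMM
    nlinarith
  have hcQ : Q ≤ c * B0 := by
    have h5 : Q = 2 ^ (D + s + 4) * (B0 : ℝ) := by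
      rw [hQ, hBdef]
      ring
    rw [h5, hc]
    apply mul_le_mul_of_nonneg_right _ (by linarith)
    nlinarith
  have hm2 : ((m : ℝ) + 1) * 2 ^ m ≤ c ^ m := by
    have h3 : (m : ℝ) + 1 ≤ 2 ^ m := by
      have : m + 1 ≤ 2 ^ m := Nat.lt_two_pow_self
      exact_mod_cast this
    calc ((m : ℝ) + 1) * 2 ^ m ≤ 2 ^ m * 2 ^ m := mul_le_mul_of_nonneg_right h3 (by positivity)
      _ = 4 ^ m := by rw [← mul_pow]; norm_num
      _ ≤ c ^ m := pow_le_pow_left₀ (by norm_num) hc4 m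
  have hQ0 : 0 ≤ Q := by positivity
  have hQi : Q ^ i ≤ (c * B0) ^ i := pow_le_pow_left₀ hQ0 hcQ i
  have hc0 : 0 ≤ c := by linarith
  calc (MM s D : ℝ) * (2 ^ D * (((m : ℝ) + 1) * 2 ^ m * a) * Q ^ i)
      = (((MM s D : ℝ) * 2 ^ D) * (((m : ℝ) + 1) * 2 ^ m)) * (a * Q ^ i) := by ring
    _ ≤ (c * c ^ m) * (a * (c * B0) ^ i) := by
        apply mul_le_mul
        · exact mul_le_mul hcM hm2 (by positivity) hc0
        · exact mul_le_mul_of_nonneg_left hQi ha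
        · positivity
        · positivity
    _ = c ^ (m + 1) * a * (c * B0) ^ i := by rw [pow_succ]; ring

end Pool.Agent.H10.GPO
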